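import Pool.Agent.helper52.EU.SpecY
import Pool.Agent.helper95.FI.SpecA
import Pool.Agent.helper24.SK.Spec

/-! Row eu:TFE (MP_ad8ced_nt): moments of the divisor function over the elements of the fundamental domain. -/

set_option autoImplicit false

open Finset

namespace Pool.Agent.EU

open Pool.Agent.FI Pool.Agent.HK Pool.Agent.BP Pool.Agent.YB
open Pool.Agent.CH (nit)

open scoped Classical in
theorem TFE (hSIZ : SIZ_stmt) (hCN2 : CN2_stmt) (hTAM : Pool.Agent.SK.TAM_stmt) : TFE_stmt := by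
  have h1 : ∀ (N c : ℕ) (Q : ℕ → Prop), ∑ z ∈ FF N with Q (nn z), (#(nn z).divisors : ℝ) ^ c ≤
      ∑ n ∈ Icc 1 N with Q n, (#n.divisors : ℝ) ^ (c + 2) := by
    intro N c Q
    have hFF : ∀ z ∈ FF N, Fd z ∧ nn z ≤ N := by
      intro z hz
      unfold FF at hz
      exact (Finset.mem_filter.1 hz).2
    rw [← Finset.sum_fiberwise_of_maps_to (s := {z ∈ FF N | Q (nn z)}) (t := {n ∈ Icc 1 N | Q n}) (g := nn) (by
      intro z hz
      rw [Finset.mem_filter] at hz
      obtain ⟨hd, hn⟩ := hFF z hz.1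
      rw [Finset.mem_filter, Finset.mem_Icc]
      exact ⟨⟨(hSIZ z hd).2.2.1, hn⟩, hz.2⟩)]
    refine Finset.sum_le_sum fun n hn => ?_
    have h2 : ∑ z ∈ ({z ∈ FF N | Q (nn z)} : Finset (ℤ × ℤ)) with nn z = n, (#(nn z).divisors : ℝ) ^ c =
        (#({z ∈ ({z ∈ FF N | Q (nn z)} : Finset (ℤ × ℤ)) | nn z = n}) : ℝ) * (#n.divisors : ℝ) ^ c := by
      rw [Finset.sum_congr rfl (g := fun _ => (#n.divisors : ℝ) ^ c) fun z hz => by rw [(Finset.mem_filter.1 hz).2],
        Finset.sum_const, nsmul_eq_mul]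
    rw [h2]
    have h3 : (#({z ∈ ({z ∈ FF N | Q (nn z)} : Finset (ℤ × ℤ)) | nn z = n}) : ℝ) ≤ (#n.divisors : ℝ) ^ 2 := by
      rcases Finset.eq_empty_or_nonempty ({z ∈ ({z ∈ FF N | Q (nn z)} : Finset (ℤ × ℤ)) | nn z = n}) with he | ⟨w, hw⟩
      · rw [he, Finset.card_empty, Nat.cast_zero]
        positivity
      · have hodd : Odd n := by
          rw [Finset.mem_filter, Finset.mem_filter] at hw
          have h4 := (hSIZ w (hFF w hw.1.1).1).2.2.2.2
          rw [hw.2] at h4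
          rw [Nat.odd_iff]
          rcases h4 with h | h <;> omega
        have h5 : #({z ∈ ({z ∈ FF N | Q (nn z)} : Finset (ℤ × ℤ)) | nn z = n}) ≤ #{z ∈ FF n | nn z = n} := by
          refine Finset.card_le_card fun z hz => ?_
          rw [Finset.mem_filter, Finset.mem_filter] at hz
          have h6 := (hSIZ z (hFF z hz.1.1).1).2.2.2.1
          rw [hz.2] at h6
          exact Finset.mem_filter.2 ⟨h6, hz.2⟩
        have h7 := h5.trans (hCN2 n hodd)
        exact_mod_cast h7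
    calc _ ≤ (#n.divisors : ℝ) ^ 2 * (#n.divisors : ℝ) ^ c := mul_le_mul_of_nonneg_right h3 (by positivity)
      _ = _ := by rw [← pow_add, add_comm]
  refine ⟨h1, fun c => ⟨1, 2 ^ (c + 2), one_pos, fun N hN => ?_⟩⟩
  have h2 := h1 N c fun _ => True
  simp only [Finset.filter_true] at h2
  refine h2.trans ?_
  have h3 := (hTAM (c + 2) N).1
  rw [one_mul]
  exact h3

end Pool.Agent.EU
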