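import Pool.Agent.helper52.EU.SpecW

/-! Row eu:WST (MP_ad8ced_nt): the smooth sum over a window for small `t`. -/

set_option autoImplicit false

open Finset

namespace Pool.Agent.EU

open Pool.Agent.FI Pool.Agent.HK Pool.Agent.BP
open Pool.Agent.CH (nit)

theorem WST_lep : lep ≤ 2 := by
  have h8 : √8 ^ 2 = 8 := Real.sq_sqrt (by norm_num)
  have h80 : 0 < √8 := Real.sqrt_pos.2 (by norm_num)
  have h3 : √8 ≤ 3 := by nlinarith
  unfold lep
  rw [Real.log_le_iff_le_exp (by linarith)]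
  have h1 : (2.7182818283 : ℝ) < Real.exp 1 := Real.exp_one_gt_d9
  have h2 : Real.exp 2 = Real.exp 1 * Real.exp 1 := by
    rw [← Real.exp_add]
    norm_num
  rw [h2]
  nlinarith

theorem WST_cosh {u : ℝ} (hu : |u| ≤ lep) : Real.cosh (u / 2) ^ 2 ≤ 2 := by
  have h8 : √8 ^ 2 = 8 := Real.sq_sqrt (by norm_num)
  have h80 : 0 < √8 := Real.sqrt_pos.2 (by norm_num)
  have hpos : (0 : ℝ) < 3 + √8 := by linarith
  have h1 : Real.cosh lep = 3 := by
    have h2 : (3 + √8)⁻¹ = 3 - √8 := inv_eq_of_mul_eq_one_right (by nlinarith)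
    unfold lep
    rw [Real.cosh_log hpos, h2]
    ring
  have h2 : Real.cosh u ≤ 3 := by
    rw [← h1]
    exact Real.cosh_le_cosh.2 (hu.trans (le_abs_self _))
  have h3 : Real.cosh u = Real.cosh (u / 2) ^ 2 + Real.sinh (u / 2) ^ 2 := by
    rw [← Real.cosh_two_mul]
    congr 1
    ring
  have h4 := Real.cosh_sq (u / 2)
  linarith

theorem WST_ra {sg : ℤ} : 1 ≤ ra sg := by
  unfold ra
  split_ifs <;> norm_num

theorem WST_gI {sg : ℤ} {M M' : ℕ} {t : ℝ} {n : ℤ} {u : ℝ} (h : ¬ ra sg * (n : ℝ) ^ 2 ≤ 2 * M') (hu : |u| ≤ lep) :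
    gI sg M M' t n u = 0 := by
  unfold gI
  rw [if_neg]
  rintro ⟨_, h2⟩
  have hc : 0 < Real.cosh (u / 2) ^ 2 := pow_pos (Real.cosh_pos _) 2
  rw [div_le_iff₀ hc] at h2
  refine h (h2.trans ?_)
  have := WST_cosh hu
  have h0 : (0 : ℝ) ≤ M' := Nat.cast_nonneg _
  nlinarith

theorem WST_int (sg : ℤ) (M M' : ℕ) (t : ℝ) (n : ℤ) (a b : ℝ) :
    IntervalIntegrable (fun u => gI sg M M' t n u) MeasureTheory.volume a b := by
  have hcc : Continuous fun u : ℝ => Real.cosh (u / 2) ^ 2 := by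
    have : Continuous fun u : ℝ => Real.cosh (u / 2) := Real.continuous_cosh.comp (continuous_id.div_const 2)
    exact this.pow 2
  have hc0 : ∀ u : ℝ, Real.cosh (u / 2) ^ 2 ≠ 0 := fun u => (pow_pos (Real.cosh_pos _) 2).ne'
  have hf : Continuous fun u : ℝ => ra sg * (n : ℝ) ^ 2 / Real.cosh (u / 2) ^ 2 := continuous_const.div hcc hc0
  have hg : Continuous fun u : ℝ => rb sg * (n : ℝ) / (2 * Real.cosh (u / 2) ^ 2) :=
    continuous_const.div (continuous_const.mul hcc) fun u => mul_ne_zero two_ne_zero (hc0 u)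
  have hm : Measurable fun u => gI sg M M' t n u := by
    unfold gI
    refine Measurable.ite ?_ ?_ measurable_const
    · exact (measurableSet_lt measurable_const hf.measurable).inter (measurableSet_le hf.measurable measurable_const)
    · refine Measurable.mul ?_ (Complex.continuous_ofReal.comp hg).measurable
      unfold Pool.Agent.CH.nit
      refine Complex.continuous_exp.measurable.comp ?_
      refine Measurable.mul ?_ measurable_const
      refine Complex.continuous_ofReal.measurable.comp ?_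
      exact (Real.measurable_log.comp hf.measurable).const_mul t
  refine (intervalIntegrable_const (c := |rb sg * (n : ℝ)|)).mono_fun' hm.aestronglyMeasurable ?_
  refine Filter.Eventually.of_forall fun u => ?_
  have hc1 : 1 ≤ 2 * Real.cosh (u / 2) ^ 2 := by
    have := Real.one_le_cosh (u / 2)
    nlinarith
  show ‖gI sg M M' t n u‖ ≤ |rb sg * (n : ℝ)|
  unfold gI
  split_ifs with h
  · rw [norm_mul]
    have h1 : ‖nit t (ra sg * (n : ℝ) ^ 2 / Real.cosh (u / 2) ^ 2)‖ = 1 := by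
      unfold Pool.Agent.CH.nit
      exact Complex.norm_exp_ofReal_mul_I _
    rw [h1, one_mul, Complex.norm_real, Real.norm_eq_abs, abs_div, abs_of_pos (by linarith : (0 : ℝ) < 2 * Real.cosh (u / 2) ^ 2)]
    exact div_le_self (abs_nonneg _) hc1
  · rw [norm_zero]
    exact abs_nonneg _

open scoped Classical in
theorem WST (hWRZ : WRZ_stmt) (hWRI : WRI_stmt) (hWNI : WNI_stmt) : WST_stmt := by
  obtain ⟨C₁, hC₁, h1⟩ := hWRI
  obtain ⟨C₂, hC₂, h2⟩ := hWNI
  refine ⟨2 * C₁ + 4 * C₂, by positivity, ?_⟩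
  intro M M' q c sg y h t hsg h2q hq hc1 hy hh hyh hM hMM
  have hq0 : (1 : ℝ) ≤ (q : ℝ) := by exact_mod_cast hq
  have hqc : (q : ℂ) ≠ 0 := by
    have : (q : ℝ) ≠ 0 := by positivity
    exact_mod_cast (by omega : q ≠ 0)
  obtain ⟨hW1, hW2⟩ := hWRZ M M' q c sg y h hsg hy hh hyh
  have hWF := hW1 t h2q hq hc1
  set R : ℤ → ℂ := fun n => ∑ m ∈ RowS M M' q c sg y h n, nit t (nn (pz sg n m)) with hR
  set J : ℤ → ℂ := fun n => ∫ u in y..(y + h), gI sg M M' t n u with hJ
  have hth : 0 ≤ |t| * h := mul_nonneg (abs_nonneg _) hh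
  have hlep := WST_lep
  have hul : ∀ u ∈ Set.uIcc y (y + h), |u| ≤ lep := by
    intro u hu
    rw [Set.uIcc_of_le (by linarith)] at hu
    rw [abs_le]
    exact ⟨hy.trans hu.1, hu.2.trans hyh⟩
  -- the rows
  have hR0 : ∀ n : ℤ, 1 ≤ n → ¬ ra sg * (n : ℝ) ^ 2 ≤ 2 * M' → R n = 0 := by
    intro n hn hbig
    have : RowS M M' q c sg y h n = ∅ := by
      by_contra hne
      exact hbig ((hW2 n hn).2.1 (Finset.nonempty_iff_ne_empty.2 hne)).2
    simp only [hR, this, Finset.sum_empty]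
  have hRq : ∀ n : ℤ, ¬ (q : ℤ) ∣ n - co sg c → R n = 0 := by
    intro n hn
    have : RowS M M' q c sg y h n = ∅ := by
      rw [Finset.eq_empty_iff_forall_notMem]
      intro m hm
      unfold RowS at hm
      rw [Finset.mem_filter] at hm
      apply hn
      unfold co
      rcases hsg with hs | hs
      · rw [if_pos hs]
        have := hm.2.2.2.2.2.1
        unfold pz at this
        rw [if_pos hs] at this
        exact this
      · have hs' : ¬ sg = 1 := by
          rw [hs]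
          norm_num
        rw [if_neg hs']
        have := hm.2.2.2.2.2.2
        unfold pz at this
        rw [if_neg hs'] at this
        exact this
    simp only [hR, this, Finset.sum_empty]
  have hJ0 : ∀ n : ℤ, ¬ ra sg * (n : ℝ) ^ 2 ≤ 2 * M' → J n = 0 := by
    intro n hbig
    simp only [hJ]
    rw [intervalIntegral.integral_congr (g := fun _ => (0 : ℂ)) fun u hu => WST_gI hbig (hul u hu)]
    simp
  set T : Finset ℤ := {n ∈ Icc (1 : ℤ) (2 * M') | (q : ℤ) ∣ n - co sg c} with hT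
  have hsum : WF M M' q c sg y h t = ∑ n ∈ T, R n := by
    rw [hWF, hT, Finset.sum_filter]
    refine Finset.sum_congr rfl fun n _ => ?_
    split_ifs with hd
    · rfl
    · exact hRq n hd
  have hA : ‖∑ n ∈ T, R n - 1 / (q : ℂ) * ∑ n ∈ T, J n‖ ≤ 2 * C₁ * √(M' : ℝ) * (1 + |t| * h) := by
    rw [Finset.mul_sum, ← Finset.sum_sub_distrib]
    have hb : ∀ n ∈ T, ‖R n - 1 / (q : ℂ) * J n‖ ≤ if n ∈ Icc (1 : ℤ) (Nat.sqrt (2 * M')) then C₁ * (1 + |t| * h) else 0 := by
      intro n hn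
      rw [hT, Finset.mem_filter, Finset.mem_Icc] at hn
      obtain ⟨⟨hn1, hn2⟩, hnd⟩ := hn
      by_cases hbig : ra sg * (n : ℝ) ^ 2 ≤ 2 * M'
      · have hmem : n ∈ Icc (1 : ℤ) (Nat.sqrt (2 * M')) := by
          rw [Finset.mem_Icc]
          refine ⟨hn1, ?_⟩
          lift n to ℕ using by omega
          have h3 : (n : ℝ) ^ 2 ≤ 2 * M' := by
            refine le_trans ?_ hbig
            have h4 := WST_ra (sg := sg)
            have h5 : (0 : ℝ) ≤ ((n : ℤ) : ℝ) ^ 2 := by positivity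
            have h6 : (((n : ℤ) : ℝ)) = (n : ℝ) := by push_cast; rfl
            rw [h6] at h5 ⊢
            nlinarith
          have h4 : n ^ 2 ≤ 2 * M' := by exact_mod_cast h3
          have h5 : n ≤ Nat.sqrt (2 * M') := by
            rw [Nat.le_sqrt']
            exact h4
          exact_mod_cast h5
        rw [if_pos hmem]
        exact h1 M M' q c sg y h t n hsg hq hn1 hy hh hyh hM hMM hnd
      · rw [hR0 n hn1 hbig, hJ0 n hbig, mul_zero, sub_zero, norm_zero]
        split_ifs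
        · positivity
        · exact le_rfl
    refine (norm_sum_le _ _).trans ((Finset.sum_le_sum hb).trans ?_)
    rw [← Finset.sum_filter, Finset.sum_const, nsmul_eq_mul]
    have hcard : (#({n ∈ T | n ∈ Icc (1 : ℤ) (Nat.sqrt (2 * M'))}) : ℝ) ≤ 2 * √(M' : ℝ) := by
      have h3 : #({n ∈ T | n ∈ Icc (1 : ℤ) (Nat.sqrt (2 * M'))}) ≤ #(Icc (1 : ℤ) (Nat.sqrt (2 * M'))) :=
        Finset.card_le_card fun n hn => (Finset.mem_filter.1 hn).2
      rw [Int.card_Icc] at h3
      have h4 : #({n ∈ T | n ∈ Icc (1 : ℤ) (Nat.sqrt (2 * M'))}) ≤ Nat.sqrt (2 * M') := by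
        refine h3.trans ?_
        simp
      have h5 : ((Nat.sqrt (2 * M') : ℕ) : ℝ) ≤ √((2 * M' : ℕ) : ℝ) := Real.nat_sqrt_le_real_sqrt
      have h6 : √((2 * M' : ℕ) : ℝ) ≤ 2 * √(M' : ℝ) := by
        rw [Real.sqrt_le_left (by positivity), mul_pow, Real.sq_sqrt (Nat.cast_nonneg _)]
        push_cast
        have : (0 : ℝ) ≤ M' := Nat.cast_nonneg _
        linarith
      have h7 : (#({n ∈ T | n ∈ Icc (1 : ℤ) (Nat.sqrt (2 * M'))}) : ℝ) ≤ ((Nat.sqrt (2 * M') : ℕ) : ℝ) := by exact_mod_cast h4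
      linarith
    calc _ ≤ (2 * √(M' : ℝ)) * (C₁ * (1 + |t| * h)) := mul_le_mul_of_nonneg_right hcard (by positivity)
      _ = _ := by ring
  -- the integral
  have hB : ‖∑ n ∈ T, J n - (h : ℂ) * (1 / (q : ℂ) * rhoT M M' t)‖ ≤ 4 * C₂ * √(M' : ℝ) * (1 + |t| * h) := by
    have h3 : ∑ n ∈ T, J n - (h : ℂ) * (1 / (q : ℂ) * rhoT M M' t) =
        ∫ u in y..(y + h), (∑ n ∈ T, gI sg M M' t n u - 1 / (q : ℂ) * rhoT M M' t) := by
      rw [intervalIntegral.integral_sub, intervalIntegral.integral_finset_sum, intervalIntegral.integral_const]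
      · simp only [hJ, add_sub_cancel_left, Complex.real_smul]
      · exact fun n _ => WST_int sg M M' t n y (y + h)
      · have h8 := IntervalIntegrable.sum T fun n _ => WST_int sg M M' t n y (y + h)
        have h9 : (∑ i ∈ T, fun u => gI sg M M' t i u) = fun u => ∑ n ∈ T, gI sg M M' t n u := by
          funext u
          rw [Finset.sum_apply]
        rw [h9] at h8
        exact h8
      · exact intervalIntegrable_const
    rw [h3]
    have h4 : ‖∫ u in y..(y + h), (∑ n ∈ T, gI sg M M' t n u - 1 / (q : ℂ) * rhoT M M' t)‖ ≤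
        (C₂ * (1 + |t|) * √(M' : ℝ)) * |y + h - y| := by
      refine intervalIntegral.norm_integral_le_of_norm_le_const fun u hu => ?_
      exact h2 M M' q (co sg c) sg t u hsg hq hM hMM (hul u (Set.uIoc_subset_uIcc hu))
    refine h4.trans ?_
    rw [add_sub_cancel_left, abs_of_nonneg hh]
    have h5 : (1 + |t|) * h ≤ 4 * (1 + |t| * h) := by nlinarith
    calc _ = C₂ * √(M' : ℝ) * ((1 + |t|) * h) := by ring
      _ ≤ C₂ * √(M' : ℝ) * (4 * (1 + |t| * h)) := mul_le_mul_of_nonneg_left h5 (by positivity)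
      _ = _ := by ring
  have hid : WF M M' q c sg y h t - (h / (q : ℝ) ^ 2 : ℝ) * rhoT M M' t =
      (∑ n ∈ T, R n - 1 / (q : ℂ) * ∑ n ∈ T, J n) + 1 / (q : ℂ) * (∑ n ∈ T, J n - (h : ℂ) * (1 / (q : ℂ) * rhoT M M' t)) := by
    rw [hsum]
    push_cast
    field_simp
    ring
  rw [hid]
  refine (norm_add_le _ _).trans ?_
  rw [norm_mul]
  have hqn : ‖1 / (q : ℂ)‖ ≤ 1 := by
    rw [norm_div, norm_one, Complex.norm_natCast]
    exact div_le_one_of_le₀ hq0 (by positivity)
  have h6 : ‖1 / (q : ℂ)‖ * ‖∑ n ∈ T, J n - (h : ℂ) * (1 / (q : ℂ) * rhoT M M' t)‖ ≤ 4 * C₂ * √(M' : ℝ) * (1 + |t| * h) :=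
    (mul_le_of_le_one_left (norm_nonneg _) hqn).trans hB
  calc _ ≤ 2 * C₁ * √(M' : ℝ) * (1 + |t| * h) + 4 * C₂ * √(M' : ℝ) * (1 + |t| * h) := add_le_add hA h6
    _ = _ := by ring

end Pool.Agent.EU
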